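import Pool.Agent.V7H25.Wilf.Perm

/-!
# `Av(45123, 45213)` and `Av(12345, 12354)` are equinumerous (MP_b2be16_co, Q1)

Proof. The sets of patterns `{321, 312}` and `{123, 213}` are shape-Wilf equivalent: a full filling of a
Ferrers board (all cells to the south-west of a cell of the board are in the board) which avoids
one of the two sets has its highest point in one of two columns of the top row (the first two columns for
`{123, 213}`, the last two columns of the row for `{321, 312}`), and this point may be removed. In both cases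
the number of the fillings is the product over the rows of
`min 2 (width of the row - number of the rows above it)`. In the same way `12` and `21` are shape-Wilf
equivalent. By the argument of Backelin, West and Xin (rearrange the points which have a copy of the second
summand to the north-east) this gives

`{45123, 45213}`, reversed `{321, 312} ⊕ 21`, equivalent to `{123, 213} ⊕ 21`,
reversed and complemented `21 ⊕ {123, 132}`, equivalent to `12 ⊕ {123, 132} = {12345, 12354}`.
-/

set_option autoImplicit false

namespace Pool.Agent.Results.MP_b2be16_co.WilfEquivalentH25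

open Equiv

/-- `π` contains the pattern whose one-line notation is the word `σ`: there are positions
`i 0 < i 1 < …` such that `π (i a) < π (i b)` if and only if `σ a < σ b`, for all `a`, `b`. -/
def Contains {k n : ℕ} (σ : Fin k → ℕ) (π : Perm (Fin n)) : Prop :=
  ∃ i : Fin k → Fin n, StrictMono i ∧ ∀ a b : Fin k, π (i a) < π (i b) ↔ σ a < σ b

/-- `Av n σ τ`: the set of the permutations of `n` points which avoid the patterns `σ` and `τ`. -/
def Av {k l : ℕ} (n : ℕ) (σ : Fin k → ℕ) (τ : Fin l → ℕ) : Set (Perm (Fin n)) :=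
  {π | ¬ Contains σ π ∧ ¬ Contains τ π}

theorem of_contains {n : ℕ} {σ : Fin 5 → ℕ} {π : Perm (Fin n)} (h : Contains σ π) :
    ∃ a b c d e : Fin n, a < b ∧ b < c ∧ c < d ∧ d < e ∧
      ∀ x y : Fin 5, σ x < σ y → π (![a, b, c, d, e] x) < π (![a, b, c, d, e] y) := by
  obtain ⟨i, hi, h⟩ := h
  have e : ![i 0, i 1, i 2, i 3, i 4] = i := by
    funext x
    fin_cases x <;> rfl
  refine ⟨i 0, i 1, i 2, i 3, i 4, hi (by decide), hi (by decide), hi (by decide),
    hi (by decide), ?_⟩
  rw [e]
  intro x y hxy
  exact (h x y).2 hxy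

theorem contains_of {n : ℕ} {σ : Fin 5 → ℕ} {π : Perm (Fin n)} (hσ : Function.Injective σ)
    {a b c d e : Fin n} (hab : a < b) (hbc : b < c) (hcd : c < d) (hde : d < e)
    (h : ∀ x y : Fin 5, σ x < σ y → π (![a, b, c, d, e] x) < π (![a, b, c, d, e] y)) :
    Contains σ π := by
  refine ⟨![a, b, c, d, e], ?_, ?_⟩
  · rw [Fin.strictMono_iff_lt_succ]
    intro x
    fin_cases x
    · exact hab
    · exact hbc
    · exact hcd
    · exact hde
  · intro x y
    constructor
    · intro hxy
      by_contra hn
      rcases eq_or_lt_of_le (not_lt.1 hn) with h1 | h1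
      · rw [hσ h1] at hxy
        exact lt_irrefl _ hxy
      · exact lt_asymm hxy (h y x h1)
    · exact h x y

open Pool.Agent.V7H25.Wilf

theorem av1 {n : ℕ} (π : Perm (Fin n)) :
    (¬ Contains ![4, 5, 1, 2, 3] π ∧ ¬ Contains ![4, 5, 2, 1, 3] π) ↔ ¬ Occ r0 π := by
  rw [← not_or, not_iff_not]
  constructor
  · rintro (h | h)
    · obtain ⟨a, b, c, d, e, hab, hbc, hcd, hde, h⟩ := of_contains h
      refine ⟨a, b, c, d, e, hab, hbc, hcd, hde, ?_, ?_, ?_, ?_⟩
      · exact h 2 4 (by decide)
      · exact h 3 4 (by decide)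
      · exact h 4 0 (by decide)
      · exact h 0 1 (by decide)
    · obtain ⟨a, b, c, d, e, hab, hbc, hcd, hde, h⟩ := of_contains h
      refine ⟨a, b, c, d, e, hab, hbc, hcd, hde, ?_, ?_, ?_, ?_⟩
      · exact h 2 4 (by decide)
      · exact h 3 4 (by decide)
      · exact h 4 0 (by decide)
      · exact h 0 1 (by decide)
  · rintro ⟨a, b, c, d, e, hab, hbc, hcd, hde, h1, h2, h3, h4⟩
    rw [← Fin.lt_def] at h1 h2 h3 h4
    have hne : π c ≠ π d := fun h => (ne_of_lt hcd) (π.injective h)
    rcases lt_or_gt_of_ne hne with h5 | h5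
    · left
      refine contains_of (by decide) hab hbc hcd hde ?_
      intro x y hxy
      fin_cases x <;> fin_cases y <;> first | exact absurd hxy (by decide) | (simp; order)
    · right
      refine contains_of (by decide) hab hbc hcd hde ?_
      intro x y hxy
      fin_cases x <;> fin_cases y <;> first | exact absurd hxy (by decide) | (simp; order)

theorem av2 {n : ℕ} (π : Perm (Fin n)) :
    (¬ Contains ![1, 2, 3, 4, 5] π ∧ ¬ Contains ![1, 2, 3, 5, 4] π) ↔ ¬ Occ r4 π := by
  rw [← not_or, not_iff_not]
  constructor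
  · rintro (h | h)
    · obtain ⟨a, b, c, d, e, hab, hbc, hcd, hde, h⟩ := of_contains h
      refine ⟨a, b, c, d, e, hab, hbc, hcd, hde, ?_, ?_, ?_, ?_⟩
      · exact h 0 1 (by decide)
      · exact h 1 2 (by decide)
      · exact h 2 3 (by decide)
      · exact h 2 4 (by decide)
    · obtain ⟨a, b, c, d, e, hab, hbc, hcd, hde, h⟩ := of_contains h
      refine ⟨a, b, c, d, e, hab, hbc, hcd, hde, ?_, ?_, ?_, ?_⟩
      · exact h 0 1 (by decide)
      · exact h 1 2 (by decide)
      · exact h 2 3 (by decide)
      · exact h 2 4 (by decide)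
  · rintro ⟨a, b, c, d, e, hab, hbc, hcd, hde, h1, h2, h3, h4⟩
    rw [← Fin.lt_def] at h1 h2 h3 h4
    have hne : π d ≠ π e := fun h => (ne_of_lt hde) (π.injective h)
    rcases lt_or_gt_of_ne hne with h5 | h5
    · left
      refine contains_of (by decide) hab hbc hcd hde ?_
      intro x y hxy
      fin_cases x <;> fin_cases y <;> first | exact absurd hxy (by decide) | (simp; order)
    · right
      refine contains_of (by decide) hab hbc hcd hde ?_
      intro x y hxy
      fin_cases x <;> fin_cases y <;> first | exact absurd hxy (by decide) | (simp; order)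

/-- **Full (positive) answer to Q1**: for every `n`, the number of permutations of `n` points which
avoid `45123` and `45213` equals the number of those which avoid `12345` and `12354`. -/
theorem result (n : ℕ) :
    (Av n ![4, 5, 1, 2, 3] ![4, 5, 2, 1, 3]).ncard = (Av n ![1, 2, 3, 4, 5] ![1, 2, 3, 5, 4]).ncard := by
  classical
  have e1 : Av n ![4, 5, 1, 2, 3] ![4, 5, 2, 1, 3] =
      ((Finset.univ.filter fun π : Perm (Fin n) => ¬ Occ r0 π : Finset (Perm (Fin n))) :
        Set (Perm (Fin n))) := by
    ext π
    rw [Finset.mem_coe, Finset.mem_filter]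
    exact ⟨fun h => ⟨Finset.mem_univ _, (av1 π).1 h⟩, fun h => (av1 π).2 h.2⟩
  have e2 : Av n ![1, 2, 3, 4, 5] ![1, 2, 3, 5, 4] =
      ((Finset.univ.filter fun π : Perm (Fin n) => ¬ Occ r4 π : Finset (Perm (Fin n))) :
        Set (Perm (Fin n))) := by
    ext π
    rw [Finset.mem_coe, Finset.mem_filter]
    exact ⟨fun h => ⟨Finset.mem_univ _, (av2 π).1 h⟩, fun h => (av2 π).2 h.2⟩
  rw [e1, e2, Set.ncard_coe_finset, Set.ncard_coe_finset]
  convert chain n

end Pool.Agent.Results.MP_b2be16_co.WilfEquivalentH25
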